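import Pool.Agent.R717.SLTwo
import Pool.Agent.R717.ModNine3
import Pool.Agent.R717.ModNineC
import Mathlib

/-!
# A decomposition matrix of a finite quasi-simple group of Lie type which is not unitriangular

For `G = SL(2, 9)` and `ℓ = 3`, the block containing the faithful irreducible Brauer characters has
a decomposition matrix which is not unitriangular: no ordinary irreducible character in it has an
irreducible restriction to the `3`-regular elements.
-/

namespace Pool.Agent.Results.MP_5c3aa2_al.FaithfulBlockSL29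

open Module Pool.Agent.R717.SLTwo

/-- An algebraic closure of the field with `ℓ` elements. -/
abbrev Fbar (ℓ : ℕ) [Fact ℓ.Prime] : Type := AlgebraicClosure (ZMod ℓ)

/-- `g` is `ℓ`-regular: its order is prime to `ℓ`. -/
def Regular (ℓ : ℕ) {G : Type} [Group G] (g : G) : Prop := ¬ ℓ ∣ orderOf g

/-- The value at `g` of the Brauer character of `ρ`: the sum of the lifts (by `θ`) of the
eigenvalues of `ρ g`, with multiplicities. -/
noncomputable def brauer {ℓ : ℕ} [Fact ℓ.Prime] (θ : (Fbar ℓ)ˣ →* ℂˣ) {G : Type} [Group G] {n : ℕ}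
    (ρ : Representation (Fbar ℓ) G (Fin n → Fbar ℓ)) (g : G) : ℂ := by
  classical
  exact ((LinearMap.charpoly (ρ g)).roots.map
    (fun x => if h : x = 0 then 0 else ((θ (Units.mk0 x h) : ℂˣ) : ℂ))).sum

/-- The ordinary irreducible characters of `G`. -/
def Irr (G : Type) [Group G] : Type :=
  {χ : G → ℂ // ∃ (n : ℕ) (ρ : Representation ℂ G (Fin n → ℂ)), ρ.IsIrreducible ∧
    ∀ g, χ g = LinearMap.trace ℂ (Fin n → ℂ) (ρ g)}

/-- The irreducible `ℓ`-Brauer characters of `G`, as functions on the `ℓ`-regular elements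
(extended by `0`). -/
def IBr {ℓ : ℕ} [Fact ℓ.Prime] (θ : (Fbar ℓ)ˣ →* ℂˣ) (G : Type) [Group G] : Type :=
  {φ : G → ℂ // ∃ (n : ℕ) (ρ : Representation (Fbar ℓ) G (Fin n → Fbar ℓ)), ρ.IsIrreducible ∧
    ∀ g, (Regular ℓ g → φ g = brauer θ ρ g) ∧ (¬ Regular ℓ g → φ g = 0)}

/-- `d` is the `ℓ`-decomposition matrix of `G`: `χ⁰ = ∑ d(χ, φ) φ` on `ℓ`-regular elements. -/
def IsDecompositionMatrix {ℓ : ℕ} [Fact ℓ.Prime] (θ : (Fbar ℓ)ˣ →* ℂˣ) (G : Type) [Group G]
    (d : Irr G → IBr θ G → ℕ) : Prop :=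
  ∀ χ : Irr G, (Function.support (d χ)).Finite ∧
    ∀ g : G, Regular ℓ g → χ.1 g = ∑ᶠ φ : IBr θ G, (d χ φ : ℂ) * φ.1 g

section

variable {ℓ : ℕ} [Fact ℓ.Prime] {θ : (Fbar ℓ)ˣ →* ℂˣ} {G : Type} [Group G]

/-- Two irreducible Brauer characters are linked if they are both constituents of the restriction
of some ordinary irreducible character. -/
def Linked (d : Irr G → IBr θ G → ℕ) (φ φ' : IBr θ G) : Prop := ∃ χ, d χ φ ≠ 0 ∧ d χ φ' ≠ 0

/-- `IBr(B)` for the `ℓ`-block `B` containing `φ₀` (connected component of the Brauer graph). -/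
def BlockIBr (d : Irr G → IBr θ G → ℕ) (φ₀ : IBr θ G) : Set (IBr θ G) :=
  {φ | Relation.ReflTransGen (Linked d) φ₀ φ}

/-- `Irr(B)` for the `ℓ`-block `B` containing `φ₀`. -/
def BlockIrr (d : Irr G → IBr θ G → ℕ) (φ₀ : IBr θ G) : Set (Irr G) :=
  {χ | ∃ φ ∈ BlockIBr d φ₀, d χ φ ≠ 0}

/-- The decomposition matrix of the block containing `φ₀` is unitriangular. -/
def IsUnitriangular (d : Irr G → IBr θ G → ℕ) (φ₀ : IBr θ G) : Prop :=
  ∃ (n : ℕ) (χs : Fin n → Irr G) (φs : Fin n → IBr θ G),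
    Function.Injective χs ∧ Function.Injective φs ∧
    (∀ i, χs i ∈ BlockIrr d φ₀) ∧ Set.range φs = BlockIBr d φ₀ ∧
    (∀ i, d (χs i) (φs i) = 1) ∧ ∀ i j, i < j → d (χs i) (φs j) = 0

end

/-! ### Representations of `SL(2, K)` -/

section reps

variable {K k V : Type*} [Field K] [Field k] [AddCommGroup V] [Module k V]

lemma irr_submodule {G : Type*} [Group G] {ρ : Representation k G V} (hρ : ρ.IsIrreducible)
    (S : Submodule k V) (hS : ∀ g, ∀ v ∈ S, ρ g v ∈ S) : S = ⊥ ∨ S = ⊤ := by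
  have h := hρ.eq_bot_or_eq_top (⟨S, fun g v hv => hS g v hv⟩ : Subrepresentation ρ)
  rcases h with h | h
  · left; exact congrArg Subrepresentation.toSubmodule h
  · right; exact congrArg Subrepresentation.toSubmodule h

lemma irr_nontrivial {G : Type*} [Group G] {ρ : Representation k G V} (hρ : ρ.IsIrreducible) :
    Nontrivial V := by
  by_contra hcon
  rw [not_nontrivial_iff_subsingleton] at hcon
  obtain ⟨a, b, hab⟩ := hρ.toNontrivial
  apply hab
  apply Subrepresentation.toSubmodule_injective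
  exact Subsingleton.elim _ _

/-- the central involution acts by a sign -/
lemma sign {G : Type*} [Group G] {ρ : Representation k G V} (hρ : ρ.IsIrreducible) {z : G}
    (hz : z * z = 1) (hc : ∀ g, g * z = z * g) : ρ z = 1 ∨ ρ z = -1 := by
  have h1 : ∀ v, ρ z (ρ z v) = v := by
    intro v
    have : (ρ z * ρ z) v = v := by rw [← map_mul, hz, map_one]; rfl
    exact this
  let S : Submodule k V := LinearMap.ker (ρ z - 1)
  have hS : ∀ g, ∀ v ∈ S, ρ g v ∈ S := by
    intro g v hv
    rw [LinearMap.mem_ker, LinearMap.sub_apply, Module.End.one_apply, sub_eq_zero] at hv ⊢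
    have : (ρ z * ρ g) v = (ρ g * ρ z) v := by rw [← map_mul, ← map_mul, hc]
    change ρ z (ρ g v) = ρ g (ρ z v) at this
    rw [this, hv]
  rcases irr_submodule hρ S hS with h | h
  · right
    apply LinearMap.ext
    intro v
    have h2 : ρ z v + v ∈ S := by
      rw [LinearMap.mem_ker, LinearMap.sub_apply, Module.End.one_apply, map_add, h1]
      abel
    rw [h, Submodule.mem_bot] at h2
    rw [LinearMap.neg_apply, Module.End.one_apply]
    exact eq_neg_of_add_eq_zero_left h2
  · left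
    apply LinearMap.ext
    intro v
    have h2 : v ∈ S := by rw [h]; exact Submodule.mem_top
    rw [LinearMap.mem_ker, LinearMap.sub_apply, sub_eq_zero] at h2
    exact h2

lemma neg_sq : (-1 : Matrix.SpecialLinearGroup (Fin 2) K) * (-1) = 1 := by simp

lemma neg_central (g : Matrix.SpecialLinearGroup (Fin 2) K) : g * (-1) = (-1) * g := by simp

lemma rho_neg {ρ : Representation k (Matrix.SpecialLinearGroup (Fin 2) K) V} (hn : ρ (-1) = -1)
    (g : Matrix.SpecialLinearGroup (Fin 2) K) : ρ ((-1) * g) = - ρ g := by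
  rw [map_mul, hn, neg_one_mul]

lemma rels {ρ : Representation k (Matrix.SpecialLinearGroup (Fin 2) K) V} (hn : ρ (-1) = -1) :
    Pool.Agent.R717.ModNine.Rels (fun x : K => ρ (u x)) (fun a : Kˣ => ρ (t a)) (ρ w) where
  U0 := by simp only [u_zero, map_one]
  Uadd x y := by simp only [u_add, map_mul]
  T1 := by simp only [t_one, map_one]
  Tmul a b := by simp only [t_mul, map_mul]
  Tneg := by simp only [t_neg_one, hn]
  TU a x := by simp only [← map_mul, t_u]
  WT a := by simp only [← map_mul, w_t]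
  WW := by simp only [← map_mul, w_sq, hn]
  WUW x := by
    simp only [← map_mul]
    rw [w_u_w, rho_neg hn]

lemma irr_ops {ρ : Representation k (Matrix.SpecialLinearGroup (Fin 2) K) V}
    (hρ : ρ.IsIrreducible) :
    Pool.Agent.R717.ModNine.Irr (fun x : K => ρ (u x)) (fun a : Kˣ => ρ (t a)) (ρ w) := by
  intro S hU hT hW
  apply irr_submodule hρ S
  intro g v hv
  rcases bruhat g with ⟨a, x, rfl⟩ | ⟨x, a, y, rfl⟩
  · rw [map_mul]
    exact hT a _ (hU x _ hv)
  · rw [map_mul, map_mul, map_mul]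
    exact hU x _ (hT a _ (hW _ (hU y _ hv)))

/-- Dimension of the irreducible modules in characteristic `3` in which `-1` acts as `-1`. -/
lemma dim_mod [Fintype K] [IsAlgClosed k] (hK : Fintype.card K = 9) (ι : K →+* k) {n : ℕ}
    {ρ : Representation k (Matrix.SpecialLinearGroup (Fin 2) K) (Fin n → k)}
    (hρ : ρ.IsIrreducible) (hn : ρ (-1) = -1) : n ≤ 2 ∨ n = 6 := by
  have := irr_nontrivial hρ
  have h := Pool.Agent.R717.ModNine.dim hK (rels hn) (irr_ops hρ) ι
  rwa [Module.finrank_fin_fun] at h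

/-- Dimension of the irreducible modules in characteristic `0` in which `-1` acts as `-1`. -/
lemma dim_zero [Fintype K] [CharZero k] [IsAlgClosed k] (hK : Fintype.card K = 9) {n : ℕ}
    {ρ : Representation k (Matrix.SpecialLinearGroup (Fin 2) K) (Fin n → k)}
    (hn : ρ (-1) = -1) : 10 ≤ n ∨ 4 ∣ n := by
  have h := Pool.Agent.R717.ModNine.dimC hK (rels hn)
  rwa [Module.finrank_fin_fun] at h

end reps

/-! ### Values of characters at `1` and `-1` -/

lemma charpoly_smul_one {k : Type*} [Field k] {n : ℕ} (c : k) :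
    LinearMap.charpoly (c • (1 : (Fin n → k) →ₗ[k] (Fin n → k))) =
      (Polynomial.X - Polynomial.C c) ^ n := by
  rw [← LinearMap.charpoly_toMatrix _ (Pi.basisFun k (Fin n))]
  have h1 : LinearMap.toMatrix (Pi.basisFun k (Fin n)) (Pi.basisFun k (Fin n))
      (c • (1 : (Fin n → k) →ₗ[k] (Fin n → k))) = Matrix.diagonal (fun _ => c) := by
    rw [map_smul]
    have : LinearMap.toMatrix (Pi.basisFun k (Fin n)) (Pi.basisFun k (Fin n))
        (1 : (Fin n → k) →ₗ[k] (Fin n → k)) = 1 := LinearMap.toMatrix_one _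
    rw [this]
    ext i j
    by_cases h : i = j
    · subst h; simp
    · simp [h]
  rw [h1, Matrix.charpoly_diagonal, Finset.prod_const, Finset.card_univ, Fintype.card_fin]

lemma brauer_scalar {ℓ : ℕ} [Fact ℓ.Prime] (θ : (Fbar ℓ)ˣ →* ℂˣ) {G : Type} [Group G] {n : ℕ}
    (ρ : Representation (Fbar ℓ) G (Fin n → Fbar ℓ)) (g : G) (c : (Fbar ℓ)ˣ)
    (h : ρ g = (c : Fbar ℓ) • (1 : (Fin n → Fbar ℓ) →ₗ[Fbar ℓ] (Fin n → Fbar ℓ))) :
    brauer θ ρ g = n * ((θ c : ℂˣ) : ℂ) := by
  classical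
  unfold brauer
  rw [h, charpoly_smul_one, Polynomial.roots_pow, Polynomial.roots_X_sub_C]
  rw [Multiset.nsmul_singleton, Multiset.map_replicate, Multiset.sum_replicate, nsmul_eq_mul]
  rw [dif_neg c.ne_zero]
  congr 3
  exact Units.ext rfl

lemma theta_neg_one {θ : (Fbar 3)ˣ →* ℂˣ} (hθ : Function.Injective θ) :
    ((θ (-1) : ℂˣ) : ℂ) = -1 := by
  have h1 : (θ (-1)) * (θ (-1)) = 1 := by
    rw [← map_mul]; simp
  have h2 : θ (-1) ≠ 1 := by
    intro h
    have h3 : (-1 : (Fbar 3)ˣ) = 1 := hθ (by rw [h, map_one])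
    have h4 : (-1 : Fbar 3) = 1 := by
      have := congrArg (fun x : (Fbar 3)ˣ => (x : Fbar 3)) h3
      simpa using this
    have h5 : (2 : Fbar 3) = 0 := by linear_combination -h4
    have h6 : ((2 : ℕ) : Fbar 3) = 0 := by exact_mod_cast h5
    have h7 : CharP (Fbar 3) 3 := inferInstance
    rw [CharP.cast_eq_zero_iff (Fbar 3) 3] at h6
    omega
  have h3 : (((θ (-1) : ℂˣ) : ℂ) - 1) * (((θ (-1) : ℂˣ) : ℂ) + 1) = 0 := by
    have := congrArg (fun x : ℂˣ => (x : ℂ)) h1
    simp only [Units.val_mul, Units.val_one] at this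
    linear_combination this
  rcases mul_eq_zero.1 h3 with h4 | h4
  · exact absurd (Units.ext (sub_eq_zero.1 h4)) h2
  · exact eq_neg_of_add_eq_zero_left h4

section main

variable {K : Type} [Field K] [Fintype K]

abbrev SL2 (K : Type) [Field K] : Type := Matrix.SpecialLinearGroup (Fin 2) K

lemma regular_one : Regular 3 (1 : SL2 K) := by
  unfold Regular; rw [orderOf_one]; decide

lemma regular_neg_one : Regular 3 (-1 : SL2 K) := by
  unfold Regular
  intro h
  have h1 : orderOf (-1 : SL2 K) ∣ 2 := by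
    apply orderOf_dvd_of_pow_eq_one
    rw [sq]; simp
  have := Nat.le_of_dvd (by norm_num) (h.trans h1)
  omega

/-- The values of an irreducible Brauer character at `1` and `-1`. -/
lemma ibr_values {θ : (Fbar 3)ˣ →* ℂˣ} (hθ : Function.Injective θ) (φ : IBr θ (SL2 K)) :
    ∃ (n : ℕ) (ρ : Representation (Fbar 3) (SL2 K) (Fin n → Fbar 3)), ρ.IsIrreducible ∧ 0 < n ∧
      φ.1 1 = n ∧ ((ρ (-1) = 1 ∧ φ.1 (-1) = n) ∨ (ρ (-1) = -1 ∧ φ.1 (-1) = -n)) := by
  obtain ⟨n, ρ, hρ, hφ⟩ := φ.2
  have hn : 0 < n := by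
    rcases Nat.eq_zero_or_pos n with h0 | h0
    · exfalso
      subst h0
      have := irr_nontrivial hρ
      exact not_subsingleton (Fin 0 → Fbar 3) inferInstance
    · exact h0
  refine ⟨n, ρ, hρ, hn, ?_, ?_⟩
  · rw [(hφ 1).1 regular_one, brauer_scalar θ ρ 1 1 (by rw [map_one, Units.val_one, one_smul])]
    simp
  · rcases sign hρ neg_sq neg_central with h | h
    · left
      refine ⟨h, ?_⟩
      rw [(hφ _).1 regular_neg_one, brauer_scalar θ ρ (-1) 1 (by rw [h, Units.val_one, one_smul])]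
      simp
    · right
      refine ⟨h, ?_⟩
      rw [(hφ _).1 regular_neg_one, brauer_scalar θ ρ (-1) (-1) (by
        rw [h, Units.val_neg, Units.val_one]; exact (neg_one_smul _ _).symm), theta_neg_one hθ]
      ring

/-- The values of an ordinary irreducible character at `1` and `-1`. -/
lemma irr_values (χ : Irr (SL2 K)) :
    ∃ (n : ℕ) (ρ : Representation ℂ (SL2 K) (Fin n → ℂ)), ρ.IsIrreducible ∧
      χ.1 1 = n ∧ ((ρ (-1) = 1 ∧ χ.1 (-1) = n) ∨ (ρ (-1) = -1 ∧ χ.1 (-1) = -n)) := by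
  obtain ⟨n, ρ, hρ, hχ⟩ := χ.2
  refine ⟨n, ρ, hρ, ?_, ?_⟩
  · rw [hχ, map_one, LinearMap.trace_one, Module.finrank_fin_fun]
  · rcases sign hρ neg_sq neg_central with h | h
    · left
      refine ⟨h, ?_⟩
      rw [hχ, h, LinearMap.trace_one, Module.finrank_fin_fun]
    · right
      refine ⟨h, ?_⟩
      rw [hχ, h, map_neg, LinearMap.trace_one, Module.finrank_fin_fun]

/-- Constituents have the same sign at the central involution. -/
lemma same_sign {θ : (Fbar 3)ˣ →* ℂˣ} (hθ : Function.Injective θ)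
    {d : Irr (SL2 K) → IBr θ (SL2 K) → ℕ} (hd : IsDecompositionMatrix θ (SL2 K) d)
    {ε : ℝ} (hε : ε = 1 ∨ ε = -1) (χ : Irr (SL2 K)) (hχ : χ.1 (-1) = ε * χ.1 1)
    {φ : IBr θ (SL2 K)} (hφ : d χ φ ≠ 0) : φ.1 (-1) = ε * φ.1 1 := by
  classical
  obtain ⟨hfin, hsum⟩ := hd χ
  have h1 := hsum 1 regular_one
  have h2 := hsum (-1) regular_neg_one
  -- real numbers `f φ = φ 1 - ε φ (-1)`
  let f : IBr θ (SL2 K) → ℝ := fun ψ => (ψ.1 1).re - ε * (ψ.1 (-1)).re
  have hre : ∀ ψ : IBr θ (SL2 K), ψ.1 1 = ((ψ.1 1).re : ℂ) ∧ ψ.1 (-1) = ((ψ.1 (-1)).re : ℂ) ∧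
      0 ≤ f ψ := by
    intro ψ
    obtain ⟨n, ρ, hρ, hn, e1, e2⟩ := ibr_values hθ ψ
    refine ⟨by rw [e1]; simp, ?_, ?_⟩
    · rcases e2 with ⟨_, e2⟩ | ⟨_, e2⟩ <;> rw [e2] <;> simp
    · have hn' : (0 : ℝ) ≤ n := Nat.cast_nonneg n
      simp only [f]
      rcases e2 with ⟨_, e2⟩ | ⟨_, e2⟩ <;> rw [e1, e2] <;> rcases hε with rfl | rfl <;> simp
  have hsupp : ∀ g : SL2 K, (Function.support fun ψ : IBr θ (SL2 K) => (d χ ψ : ℂ) * ψ.1 g) ⊆
      ((hfin.toFinset : Finset (IBr θ (SL2 K))) : Set (IBr θ (SL2 K))) := by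
    intro g ψ hψ
    rw [Function.mem_support] at hψ
    rw [Finset.mem_coe, Set.Finite.mem_toFinset, Function.mem_support]
    intro h0
    apply hψ
    rw [h0]; simp
  rw [finsum_eq_sum_of_support_subset _ (hsupp 1)] at h1
  rw [finsum_eq_sum_of_support_subset _ (hsupp (-1))] at h2
  have h3 : ∑ ψ ∈ hfin.toFinset, (d χ ψ : ℝ) * f ψ = 0 := by
    have h4 : ((∑ ψ ∈ hfin.toFinset, (d χ ψ : ℝ) * f ψ : ℝ) : ℂ) = 0 := by
      push_cast
      have h5 : ∀ ψ ∈ hfin.toFinset, (d χ ψ : ℂ) * ((f ψ : ℝ) : ℂ) =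
          (d χ ψ : ℂ) * ψ.1 1 - ε * ((d χ ψ : ℂ) * ψ.1 (-1)) := by
        intro ψ _
        obtain ⟨e1, e2, _⟩ := hre ψ
        simp only [f]
        push_cast
        rw [← e1, ← e2]
        ring
      rw [Finset.sum_congr rfl h5, Finset.sum_sub_distrib, ← Finset.mul_sum, ← h1, ← h2, hχ]
      rcases hε with rfl | rfl <;> simp
    exact_mod_cast h4
  rw [Finset.sum_eq_zero_iff_of_nonneg (fun ψ _ => mul_nonneg (Nat.cast_nonneg _) (hre ψ).2.2)] at h3
  have h6 := h3 φ (by rw [Set.Finite.mem_toFinset, Function.mem_support]; exact hφ)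
  have h7 : f φ = 0 := by
    rcases mul_eq_zero.1 h6 with h8 | h8
    · exact absurd (by exact_mod_cast h8) hφ
    · exact h8
  obtain ⟨e1, e2, _⟩ := hre φ
  rw [e1, e2]
  simp only [f] at h7
  rcases hε with rfl | rfl
  · have : (φ.1 (-1)).re = (φ.1 1).re := by linarith
    rw [this]; simp
  · have : (φ.1 (-1)).re = -(φ.1 1).re := by linarith
    rw [this]; simp

/-- odd Brauer characters -/
def Odd' {θ : (Fbar 3)ˣ →* ℂˣ} (φ : IBr θ (SL2 K)) : Prop := φ.1 (-1) = - φ.1 1

lemma odd_of_linked {θ : (Fbar 3)ˣ →* ℂˣ} (hθ : Function.Injective θ)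
    {d : Irr (SL2 K) → IBr θ (SL2 K) → ℕ} (hd : IsDecompositionMatrix θ (SL2 K) d)
    {φ φ' : IBr θ (SL2 K)} (hφ : Odd' φ) (hl : Linked d φ φ') : Odd' φ' := by
  obtain ⟨χ, h1, h2⟩ := hl
  obtain ⟨n, ρ, hρ, e1, e2⟩ := irr_values χ
  rcases e2 with ⟨_, e2⟩ | ⟨_, e2⟩
  · exfalso
    have h3 := same_sign hθ hd (Or.inl rfl) χ (by rw [e1, e2]; simp) h1
    unfold Odd' at hφ
    rw [hφ] at h3
    obtain ⟨m, _, _, hm, e3, _⟩ := ibr_values hθ φ
    rw [e3] at h3
    have h4 : (m : ℂ) = 0 := by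
      have : -(m : ℂ) = m := by simpa using h3
      linear_combination (-1 / 2 : ℂ) * this
    have : m = 0 := by exact_mod_cast h4
    omega
  · have h3 := same_sign hθ hd (Or.inr rfl) χ (by rw [e1, e2]; simp) h2
    unfold Odd'
    rw [h3]; simp

/-- A unitriangular shape would give an ordinary irreducible character whose restriction is an
irreducible odd Brauer character; the degrees make this impossible. -/
lemma not_unitriangular (hK : Fintype.card K = 9) (ι : K →+* Fbar 3)
    {θ : (Fbar 3)ˣ →* ℂˣ} (hθ : Function.Injective θ)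
    {d : Irr (SL2 K) → IBr θ (SL2 K) → ℕ} (hd : IsDecompositionMatrix θ (SL2 K) d)
    {φ₀ : IBr θ (SL2 K)} (hφ₀ : Odd' φ₀) : ¬ IsUnitriangular d φ₀ := by
  classical
  rintro ⟨n, χs, φs, _, hinj, hχ, hrange, hdiag, htri⟩
  have hodd : ∀ φ ∈ BlockIBr d φ₀, Odd' φ := by
    intro φ hφ
    change Relation.ReflTransGen (Linked d) φ₀ φ at hφ
    induction hφ with
    | refl => exact hφ₀
    | tail _ h2 ih => exact odd_of_linked hθ hd ih h2
  have hmem : φ₀ ∈ BlockIBr d φ₀ := Relation.ReflTransGen.refl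
  have hn : 0 < n := by
    rw [← hrange] at hmem
    obtain ⟨i, _⟩ := hmem
    exact lt_of_le_of_lt (Nat.zero_le _) i.2
  let i0 : Fin n := ⟨0, hn⟩
  have hφmem : φs i0 ∈ BlockIBr d φ₀ := by rw [← hrange]; exact ⟨i0, rfl⟩
  -- the first row has a single nonzero entry
  have hzero : ∀ φ, φ ≠ φs i0 → d (χs i0) φ = 0 := by
    intro φ hne
    by_contra hcon
    obtain ⟨ψ, hψ, hψ'⟩ := hχ i0
    have h1 : φ ∈ BlockIBr d φ₀ := Relation.ReflTransGen.tail hψ ⟨χs i0, hψ', hcon⟩
    rw [← hrange] at h1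
    obtain ⟨j, rfl⟩ := h1
    have hj : i0 < j := by
      rw [Fin.lt_def]
      apply Nat.pos_of_ne_zero
      intro h0
      exact hne (congrArg φs (Fin.ext h0))
    exact hcon (htri i0 j hj)
  have hval : ∀ g : SL2 K, Regular 3 g → (χs i0).1 g = (φs i0).1 g := by
    intro g hg
    rw [(hd (χs i0)).2 g hg, finsum_eq_single _ (φs i0), hdiag i0]
    · simp
    · intro φ hne
      rw [hzero φ hne]; simp
  have hodd0 := hodd _ hφmem
  obtain ⟨m, ρ, hρ, hm, e1, e2⟩ := ibr_values hθ (φs i0)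
  obtain ⟨m', ρ', hρ', e1', e2'⟩ := irr_values (χs i0)
  have h1 := hval 1 regular_one
  rw [e1, e1'] at h1
  have hmm : m' = m := by exact_mod_cast h1
  subst hmm
  have hm0 : (m' : ℂ) ≠ 0 := by exact_mod_cast hm.ne'
  have hno : (m' : ℂ) ≠ -m' := by
    intro h
    apply hm0
    linear_combination (1 / 2 : ℂ) * h
  unfold Odd' at hodd0
  rw [e1] at hodd0
  have hρneg : ρ (-1) = -1 := by
    rcases e2 with ⟨_, e2⟩ | ⟨e, _⟩
    · rw [e2] at hodd0; exact absurd hodd0 hno
    · exact e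
  have h2 := hval (-1) regular_neg_one
  have hρneg' : ρ' (-1) = -1 := by
    rcases e2' with ⟨_, e2'⟩ | ⟨e, _⟩
    · rw [hodd0, e2'] at h2; exact absurd h2 hno
    · exact e
  have hA := dim_mod hK ι hρ hρneg
  have hB := dim_zero hK hρneg'
  omega

/-! ### The natural module -/

/-- The natural module of `SL(2, K)` over a field containing `K`. -/
noncomputable def natRep {k : Type*} [Field k] (ι : K →+* k) :
    Representation k (SL2 K) (Fin 2 → k) where
  toFun g := Matrix.toLin' (ι.mapMatrix g.1)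
  map_one' := by
    rw [Matrix.SpecialLinearGroup.coe_one, map_one, Matrix.toLin'_one]
    rfl
  map_mul' g h := by
    rw [Matrix.SpecialLinearGroup.coe_mul, map_mul, Matrix.toLin'_mul]
    rfl

omit [Fintype K] in
lemma natRep_apply {k : Type*} [Field k] (ι : K →+* k) (g : SL2 K) (v : Fin 2 → k) :
    natRep ι g v = ![ι (g.1 0 0) * v 0 + ι (g.1 0 1) * v 1, ι (g.1 1 0) * v 0 + ι (g.1 1 1) * v 1] := by
  change Matrix.toLin' (ι.mapMatrix g.1) v = _
  rw [Matrix.toLin'_apply]
  funext i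
  fin_cases i <;> simp [Matrix.mulVec, dotProduct, Fin.sum_univ_two]

omit [Fintype K] in
lemma natRep_neg {k : Type*} [Field k] (ι : K →+* k) : natRep ι (-1 : SL2 K) = -1 := by
  apply LinearMap.ext
  intro v
  rw [natRep_apply]
  funext i
  fin_cases i <;> simp

omit [Fintype K] in
lemma natRep_irreducible {k : Type*} [Field k] (ι : K →+* k) :
    (natRep (K := K) ι).IsIrreducible := by
  have hnt : Nontrivial (Subrepresentation (natRep (K := K) ι)) := by
    refine ⟨⟨⊥, ⊤, ?_⟩⟩
    intro h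
    have h1 : (⊥ : Submodule k (Fin 2 → k)) = ⊤ := congrArg Subrepresentation.toSubmodule h
    exact bot_ne_top h1
  refine { hnt with eq_bot_or_eq_top := ?_ }
  intro S
  by_cases hS : S.toSubmodule = ⊥
  · left
    exact Subrepresentation.toSubmodule_injective hS
  · right
    apply Subrepresentation.toSubmodule_injective
    change S.toSubmodule = ⊤
    obtain ⟨v, hv, hv0⟩ := Submodule.exists_mem_ne_zero_of_ne_bot hS
    have hkey : (![1, 0] : Fin 2 → k) ∈ S.toSubmodule := by
      by_cases h1 : v 1 = 0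
      · have h0 : v 0 ≠ 0 := by
          intro h0
          apply hv0
          funext i
          fin_cases i
          · exact h0
          · exact h1
        have : (![1, 0] : Fin 2 → k) = (v 0)⁻¹ • v := by
          funext i
          fin_cases i
          · simp [h0]
          · simp [h1]
        rw [this]
        exact Submodule.smul_mem _ _ hv
      · have h2 := S.apply_mem_toSubmodule (u 1) hv
        have e : natRep ι (u 1) v - v = ![v 1, 0] := by
          rw [natRep_apply]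
          funext i
          fin_cases i
          · change ι ((u 1).1 0 0) * v 0 + ι ((u 1).1 0 1) * v 1 - v 0 = v 1
            simp [u_val]
          · change ι ((u 1).1 1 0) * v 0 + ι ((u 1).1 1 1) * v 1 - v 1 = 0
            simp [u_val]
        have : (![1, 0] : Fin 2 → k) = (v 1)⁻¹ • (natRep ι (u 1) v - v) := by
          rw [e]
          funext i
          fin_cases i
          · simp [h1]
          · simp
        rw [this]
        exact Submodule.smul_mem _ _ (sub_mem h2 hv)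
    have hkey2 : (![0, 1] : Fin 2 → k) ∈ S.toSubmodule := by
      have h2 := S.apply_mem_toSubmodule w hkey
      have : (![0, 1] : Fin 2 → k) = (-1 : k) • natRep ι w ![1, 0] := by
        rw [natRep_apply]
        funext i
        fin_cases i <;> simp [w_val]
      rw [this]
      exact Submodule.smul_mem _ _ h2
    rw [eq_top_iff]
    intro x _
    have : x = x 0 • ![1, 0] + x 1 • ![0, 1] := by
      funext i
      fin_cases i <;> simp
    rw [this]
    exact add_mem (Submodule.smul_mem _ _ hkey) (Submodule.smul_mem _ _ hkey2)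

lemma exists_odd (ι : K →+* Fbar 3) {θ : (Fbar 3)ˣ →* ℂˣ} (hθ : Function.Injective θ) :
    ∃ φ₀ : IBr θ (SL2 K), Odd' φ₀ := by
  classical
  refine ⟨⟨fun g => if Regular 3 g then brauer θ (natRep ι) g else 0, 2, natRep ι,
    natRep_irreducible ι, fun g => ⟨fun h => if_pos h, fun h => if_neg h⟩⟩, ?_⟩
  unfold Odd'
  simp only
  rw [if_pos regular_neg_one, if_pos regular_one,
    brauer_scalar θ _ (-1) (-1) (by
      rw [natRep_neg, Units.val_neg, Units.val_one]; exact (neg_one_smul _ _).symm),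
    brauer_scalar θ _ 1 1 (by rw [map_one, Units.val_one, one_smul]), theta_neg_one hθ]
  simp

lemma exists_embedding (hK : Fintype.card K = 9) : Nonempty (K →+* Fbar 3) := by
  have h3 : (3 : K) = 0 := Pool.Agent.R717.ModNine.three_eq_zero hK
  obtain ⟨p, hp⟩ := CharP.exists K
  have h4 : p ∣ 3 := by
    rw [← CharP.cast_eq_zero_iff K p]
    exact_mod_cast h3
  have hp3 : p = 3 := by
    rcases (Nat.dvd_prime Nat.prime_three).1 h4 with h | h
    · subst h
      exact absurd hp (by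
        intro h
        have h5 := CharP.cast_eq_zero K 1
        rw [Nat.cast_one] at h5
        exact one_ne_zero h5)
    · exact h
  subst hp3
  let _ : Algebra (ZMod 3) K := ZMod.algebra K 3
  have : Algebra.IsAlgebraic (ZMod 3) K := Algebra.IsAlgebraic.of_finite (ZMod 3) K
  exact ⟨(IsAlgClosed.lift : K →ₐ[ZMod 3] Fbar 3).toRingHom⟩

end main

/-- **Main theorem.** Let `K` be a field with `9` elements.  The group `SL(2, K)` is perfect and its
quotient by the centre is simple.  For every injective homomorphism `θ : (F̄₃)ˣ → ℂˣ` and every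
decomposition matrix `d` of `SL(2, K)` for the prime `3` with respect to `θ`, there is a
`3`-block of `SL(2, K)` whose decomposition matrix is not unitriangular. -/
theorem result (K : Type) [Field K] [Fintype K] (hK : Fintype.card K = 9) :
    commutator (Matrix.SpecialLinearGroup (Fin 2) K) = ⊤ ∧
    IsSimpleGroup (Matrix.SpecialLinearGroup (Fin 2) K ⧸
      Subgroup.center (Matrix.SpecialLinearGroup (Fin 2) K)) ∧
    ∀ (θ : (Fbar 3)ˣ →* ℂˣ), Function.Injective θ →
      ∀ d : Irr (Matrix.SpecialLinearGroup (Fin 2) K) →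
        IBr θ (Matrix.SpecialLinearGroup (Fin 2) K) → ℕ,
      IsDecompositionMatrix θ (Matrix.SpecialLinearGroup (Fin 2) K) d →
      ∃ φ₀ : IBr θ (Matrix.SpecialLinearGroup (Fin 2) K), ¬ IsUnitriangular d φ₀ := by
  obtain ⟨ω, hω4, hωreg, hωgen⟩ := Pool.Agent.R717.ModNine.exists_gen hK
  have h2 : (ω : K) ^ 2 ≠ 1 := by
    have := hωreg 1 (by norm_num) (by norm_num) (by norm_num)
    rwa [pow_one] at this
  have h4 : (ω : K) ^ 4 ≠ 1 := by
    have := hωreg 2 (by norm_num) (by norm_num) (by norm_num)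
    rwa [Units.val_pow_eq_pow_val, ← pow_mul] at this
  refine ⟨perfect ω h2, simple_quotient ω h4, ?_⟩
  intro θ hθ d hd
  obtain ⟨ι⟩ := exists_embedding hK
  obtain ⟨φ₀, hφ₀⟩ := exists_odd ι hθ
  exact ⟨φ₀, not_unitriangular hK ι hθ hd hφ₀⟩

end Pool.Agent.Results.MP_5c3aa2_al.FaithfulBlockSL29
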